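import Mathlib

/-!
Solvable groups are amenable: invariant Hahn-Banach property.
-/

set_option autoImplicit false

open scoped commutatorElement

namespace Pool.Agent.Helper240.Amen

noncomputable section

/-- Invariant Hahn-Banach property. -/
def InvHB (G : Type) [Group G] : Prop :=
  ∀ (E : Type) [AddCommGroup E] [Module ℝ E] (π : G →* Module.End ℝ E) (p : E → ℝ),
    (∀ c : ℝ, 0 < c → ∀ x, p (c • x) = c * p x) → (∀ x y, p (x + y) ≤ p x + p y) →
    (∀ g x, p (π g x) ≤ p x) → ∃ m : E →ₗ[ℝ] ℝ, (∀ x, m x ≤ p x) ∧ ∀ g x, m (π g x) = m x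

/-- Hahn-Banach for a sublinear functional -/
theorem exists_le {E : Type} [AddCommGroup E] [Module ℝ E] (p : E → ℝ)
    (h1 : ∀ c : ℝ, 0 < c → ∀ x, p (c • x) = c * p x) (h2 : ∀ x y, p (x + y) ≤ p x + p y) :
    ∃ m : E →ₗ[ℝ] ℝ, ∀ x, m x ≤ p x := by
  have h0 : p 0 = 0 := by
    have := h1 2 two_pos 0
    rw [smul_zero] at this
    linarith
  let f : E →ₗ.[ℝ] ℝ := ⟨⊥, 0⟩
  obtain ⟨g, _, hg⟩ := exists_extension_of_le_sublinear f p h1 h2 (by
    rintro ⟨x, hx⟩
    have hx0 : x = 0 := by simpa [f] using hx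
    subst hx0
    show (0 : ℝ) ≤ p 0
    rw [h0])
  exact ⟨g, hg⟩

section step

variable {G : Type} [Group G] {E : Type} [AddCommGroup E] [Module ℝ E]
  (π : G →* Module.End ℝ E) (p : E → ℝ) (N : Subgroup G)

/-- functionals below `p`, invariant under `N` -/
def MM : Set (E →ₗ[ℝ] ℝ) := {m | (∀ x, m x ≤ p x) ∧ ∀ n ∈ N, ∀ x, m (π n x) = m x}

/-- their common kernel -/
def KK : Submodule ℝ E where
  carrier := {x | ∀ m ∈ MM π p N, m x = 0}
  add_mem' := by
    intro x y hx hy m hm
    rw [map_add, hx m hm, hy m hm, add_zero]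
  zero_mem' := fun m _ => map_zero m
  smul_mem' := by
    intro c x hx m hm
    rw [map_smul, hx m hm, smul_zero]

theorem mem_KK {x : E} : x ∈ KK π p N ↔ ∀ m ∈ MM π p N, m x = 0 := Iff.rfl

/-- the supremum of these functionals -/
def qq (x : E) : ℝ := sSup ((fun m : E →ₗ[ℝ] ℝ => m x) '' MM π p N)

variable (hne : (MM π p N).Nonempty)

include hne

omit hne in
theorem le_qq {m : E →ₗ[ℝ] ℝ} (hm : m ∈ MM π p N) (x : E) : m x ≤ qq π p N x := by
  apply le_csSup
  · refine ⟨p x, ?_⟩
    rintro _ ⟨m', hm', rfl⟩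
    exact hm'.1 x
  · exact ⟨m, hm, rfl⟩

theorem qq_le {x : E} {c : ℝ} (h : ∀ m ∈ MM π p N, m x ≤ c) : qq π p N x ≤ c := by
  apply csSup_le (hne.image _)
  rintro _ ⟨m, hm, rfl⟩
  exact h m hm

theorem qq_add (x y : E) : qq π p N (x + y) ≤ qq π p N x + qq π p N y := by
  apply qq_le π p N hne
  intro m hm
  rw [map_add]
  exact add_le_add (le_qq π p N hm x) (le_qq π p N hm y)

theorem qq_smul_le {c : ℝ} (hc : 0 ≤ c) (x : E) : qq π p N (c • x) ≤ c * qq π p N x := by
  apply qq_le π p N hne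
  intro m hm
  rw [map_smul, smul_eq_mul]
  exact mul_le_mul_of_nonneg_left (le_qq π p N hm x) hc

theorem qq_smul (c : ℝ) (hc : 0 < c) (x : E) : qq π p N (c • x) = c * qq π p N x := by
  apply le_antisymm (qq_smul_le π p N hne hc.le x)
  have h := qq_smul_le π p N hne (inv_pos.mpr hc).le (c • x)
  rw [inv_smul_smul₀ hc.ne'] at h
  have h2 := mul_le_mul_of_nonneg_left h hc.le
  rwa [← mul_assoc, mul_inv_cancel₀ hc.ne', one_mul] at h2

theorem qq_congr {x y : E} (h : x - y ∈ KK π p N) : qq π p N x = qq π p N y := by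
  have key : ∀ {x y : E}, x - y ∈ KK π p N → qq π p N x ≤ qq π p N y := by
    intro x y h
    apply qq_le π p N hne
    intro m hm
    have h2 := h m hm
    rw [map_sub] at h2
    have := le_qq π p N hm y
    linarith
  refine le_antisymm (key h) (key ?_)
  have : y - x = -(x - y) := by abel
  rw [this]
  exact (KK π p N).neg_mem h

theorem neg_qq_le (x : E) : -qq π p N (-x) ≤ qq π p N x := by
  have h := qq_add π p N hne x (-x)
  obtain ⟨m, hm⟩ := hne
  have h2 := le_qq π p N hm (x + -x)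
  rw [add_neg_cancel, map_zero] at h2
  rw [add_neg_cancel] at h
  linarith

omit hne in
theorem MM_conj [N.Normal] (hp : ∀ g x, p (π g x) ≤ p x) {m : E →ₗ[ℝ] ℝ} (hm : m ∈ MM π p N)
    (g : G) : m ∘ₗ (π g) ∈ MM π p N := by
  refine ⟨fun x => (hm.1 _).trans (hp g x), ?_⟩
  intro n hn x
  show m (π g (π n x)) = m (π g x)
  have h1 : g * n * g⁻¹ ∈ N := Subgroup.Normal.conj_mem inferInstance n hn g
  have h2 := hm.2 _ h1 (π g x)
  have h3 : π (g * n * g⁻¹) (π g x) = π g (π n x) := by
    have : π (g * n * g⁻¹) * π g = π g * π n := by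
      rw [← map_mul, ← map_mul]
      congr 1
      group
    exact LinearMap.congr_fun this x
  rw [h3] at h2
  exact h2

theorem qq_inv [N.Normal] (hp : ∀ g x, p (π g x) ≤ p x) (g : G) (x : E) :
    qq π p N (π g x) ≤ qq π p N x := by
  apply qq_le π p N hne
  intro m hm
  exact le_qq π p N (MM_conj π p N hp hm g) x

omit hne in
theorem KK_inv [N.Normal] (hp : ∀ g x, p (π g x) ≤ p x) (g : G) {x : E} (hx : x ∈ KK π p N) :
    π g x ∈ KK π p N := fun _ hm => hx _ (MM_conj π p N hp hm g)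

omit hne in
theorem KK_comm (hN : ∀ a b : G, a * b * a⁻¹ * b⁻¹ ∈ N) (a b : G) (x : E) :
    π a (π b x) - π b (π a x) ∈ KK π p N := by
  intro m hm
  have h1 := hm.2 _ (hN a b) (π b (π a x))
  have h3 : π (a * b * a⁻¹ * b⁻¹) (π b (π a x)) = π a (π b x) := by
    have : π (a * b * a⁻¹ * b⁻¹) * (π b * π a) = π a * π b := by
      rw [← map_mul, ← map_mul, ← map_mul]
      congr 1
      group
    exact LinearMap.congr_fun this x
  rw [h3] at h1
  rw [map_sub, h1, sub_self]

/-- averaging operators -/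
def av (g : G) (n : ℕ) : Module.End ℝ E :=
  ((n + 1 : ℕ) : ℝ)⁻¹ • ∑ k ∈ Finset.range (n + 1), π (g ^ k)

omit hne in
theorem av_apply (g : G) (n : ℕ) (x : E) :
    av π g n x = ((n + 1 : ℕ) : ℝ)⁻¹ • ∑ k ∈ Finset.range (n + 1), π (g ^ k) x := by
  unfold av
  rw [LinearMap.smul_apply, LinearMap.sum_apply]

/-- products of averaging operators -/
def TT : Submonoid (Module.End ℝ E) :=
  Submonoid.closure {T | ∃ g n, T = av π g n}

theorem qq_sum {ι : Type} (s : Finset ι) (f : ι → E) (c : ℝ) (h : ∀ i ∈ s, qq π p N (f i) ≤ c) :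
    qq π p N (∑ i ∈ s, f i) ≤ s.card * c := by
  classical
  induction s using Finset.induction_on with
  | empty =>
    simp only [Finset.sum_empty, Finset.card_empty, Nat.cast_zero, zero_mul]
    have := qq_smul_le π p N hne le_rfl (0 : E)
    rw [smul_zero, zero_mul] at this
    exact this
  | insert a s ha ih =>
    rw [Finset.sum_insert ha, Finset.card_insert_of_notMem ha]
    have h1 := qq_add π p N hne (f a) (∑ i ∈ s, f i)
    have h2 := h a (Finset.mem_insert_self _ _)
    have h3 := ih (fun i hi => h i (Finset.mem_insert_of_mem hi))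
    push_cast
    linarith

theorem qq_TT [N.Normal] (hp : ∀ g x, p (π g x) ≤ p x) {T : Module.End ℝ E} (hT : T ∈ TT π) :
    ∀ x, qq π p N (T x) ≤ qq π p N x := by
  induction hT using Submonoid.closure_induction with
  | mem T hT =>
    obtain ⟨g, n, rfl⟩ := hT
    intro x
    rw [av_apply]
    have h1 : (0 : ℝ) < ((n + 1 : ℕ) : ℝ) := by positivity
    refine (qq_smul_le π p N hne (inv_pos.mpr h1).le _).trans ?_
    have h2 := qq_sum π p N hne (Finset.range (n + 1)) (fun k => π (g ^ k) x) (qq π p N x)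
      (fun k _ => qq_inv π p N hne hp _ _)
    rw [Finset.card_range] at h2
    calc _ ≤ ((n + 1 : ℕ) : ℝ)⁻¹ * (((n + 1 : ℕ) : ℝ) * qq π p N x) :=
          mul_le_mul_of_nonneg_left h2 (inv_pos.mpr h1).le
      _ = qq π p N x := by rw [← mul_assoc, inv_mul_cancel₀ h1.ne', one_mul]
  | one => intro x; exact le_rfl
  | mul S T _ _ ihS ihT => intro x; exact (ihS _).trans (ihT x)

omit hne in
theorem TT_KK [N.Normal] (hp : ∀ g x, p (π g x) ≤ p x) (hN : ∀ a b : G, a * b * a⁻¹ * b⁻¹ ∈ N)
    {T : Module.End ℝ E} (hT : T ∈ TT π) :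
    (∀ x ∈ KK π p N, T x ∈ KK π p N) ∧ ∀ g x, π g (T x) - T (π g x) ∈ KK π p N := by
  induction hT using Submonoid.closure_induction with
  | mem T hT =>
    obtain ⟨g, n, rfl⟩ := hT
    refine ⟨fun x hx => ?_, fun h x => ?_⟩
    · rw [av_apply]
      exact (KK π p N).smul_mem _ ((KK π p N).sum_mem fun k _ => KK_inv π p N hp _ hx)
    · rw [av_apply, av_apply, map_smul, map_sum, ← smul_sub, ← Finset.sum_sub_distrib]
      exact (KK π p N).smul_mem _ ((KK π p N).sum_mem fun k _ => KK_comm π p N hN _ _ _)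
  | one => exact ⟨fun x hx => hx, fun g x => by
      show π g x - π g x ∈ _
      rw [sub_self]; exact (KK π p N).zero_mem⟩
  | mul S T _ _ ihS ihT =>
    refine ⟨fun x hx => ihS.1 _ (ihT.1 x hx), fun g x => ?_⟩
    show π g (S (T x)) - S (T (π g x)) ∈ _
    have e : π g (S (T x)) - S (T (π g x)) =
        (π g (S (T x)) - S (π g (T x))) + S (π g (T x) - T (π g x)) := by
      rw [map_sub]; abel
    rw [e]
    exact (KK π p N).add_mem (ihS.2 g _) (ihS.1 _ (ihT.2 g x))

omit hne in
theorem TT_comm [N.Normal] (hp : ∀ g x, p (π g x) ≤ p x) (hN : ∀ a b : G, a * b * a⁻¹ * b⁻¹ ∈ N)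
    {S T : Module.End ℝ E} (hS : S ∈ TT π) (hT : T ∈ TT π) :
    ∀ x, S (T x) - T (S x) ∈ KK π p N := by
  induction hS using Submonoid.closure_induction with
  | mem S hS =>
    obtain ⟨g, n, rfl⟩ := hS
    intro x
    rw [av_apply, av_apply, map_smul, map_sum, ← smul_sub, ← Finset.sum_sub_distrib]
    exact (KK π p N).smul_mem _ ((KK π p N).sum_mem fun k _ => (TT_KK π p N hp hN hT).2 _ _)
  | one => intro x; show T x - T x ∈ _; rw [sub_self]; exact (KK π p N).zero_mem
  | mul S S' hS _ ihS ihS' =>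
    intro x
    show S (S' (T x)) - T (S (S' x)) ∈ _
    have e : S (S' (T x)) - T (S (S' x)) =
        S (S' (T x) - T (S' x)) + (S (T (S' x)) - T (S (S' x))) := by
      rw [map_sub]; abel
    rw [e]
    exact (KK π p N).add_mem ((TT_KK π p N hp hN hS).1 _ (ihS' x)) (ihS _)

/-- the infimum over averaging operators -/
def rr (x : E) : ℝ := sInf ((fun T : Module.End ℝ E => qq π p N (T x)) '' (TT π : Set _))

theorem rr_bdd [N.Normal] (hp : ∀ g x, p (π g x) ≤ p x) (x : E) :
    BddBelow ((fun T : Module.End ℝ E => qq π p N (T x)) '' (TT π : Set _)) := by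
  refine ⟨-qq π p N (-x), ?_⟩
  rintro _ ⟨T, hT, rfl⟩
  have h1 := neg_qq_le π p N hne (T x)
  have h2 := qq_TT π p N hne hp hT (-x)
  rw [map_neg] at h2
  show _ ≤ qq π p N (T x)
  linarith

theorem rr_le [N.Normal] (hp : ∀ g x, p (π g x) ≤ p x) {T : Module.End ℝ E} (hT : T ∈ TT π)
    (x : E) : rr π p N x ≤ qq π p N (T x) :=
  csInf_le (rr_bdd π p N hne hp x) ⟨T, hT, rfl⟩

omit hne in
theorem le_rr {x : E} {c : ℝ} (h : ∀ T ∈ TT π, c ≤ qq π p N (T x)) : c ≤ rr π p N x := by
  apply le_csInf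
  · exact ⟨_, ⟨1, (TT π).one_mem, rfl⟩⟩
  · rintro _ ⟨T, hT, rfl⟩
    exact h T hT

theorem rr_add [N.Normal] (hp : ∀ g x, p (π g x) ≤ p x) (hN : ∀ a b : G, a * b * a⁻¹ * b⁻¹ ∈ N)
    (x y : E) : rr π p N (x + y) ≤ rr π p N x + rr π p N y := by
  rw [← sub_le_iff_le_add]
  apply le_rr
  intro S hS
  rw [sub_le_comm]
  apply le_rr
  intro T hT
  have h1 := rr_le π p N hne hp ((TT π).mul_mem hS hT) (x + y)
  have h2 : (S * T) (x + y) = T (S x) + (S (T x) - T (S x)) + S (T y) := by
    show S (T (x + y)) = _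
    rw [map_add, map_add]; abel
  have h3 : qq π p N ((S * T) (x + y)) ≤ qq π p N (T (S x) + (S (T x) - T (S x))) +
      qq π p N (S (T y)) := by
    rw [h2]; exact qq_add π p N hne _ _
  have h4 : qq π p N (T (S x) + (S (T x) - T (S x))) = qq π p N (T (S x)) := by
    apply qq_congr π p N hne
    rw [add_sub_cancel_left]
    exact TT_comm π p N hp hN hS hT x
  have h5 := qq_TT π p N hne hp hT (S x)
  have h6 := qq_TT π p N hne hp hS (T y)
  show rr π p N (x + y) - qq π p N (S x) ≤ qq π p N (T y)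
  linarith

theorem rr_smul [N.Normal] (hp : ∀ g x, p (π g x) ≤ p x) (c : ℝ) (hc : 0 < c) (x : E) :
    rr π p N (c • x) = c * rr π p N x := by
  have key : ∀ (c : ℝ), 0 < c → ∀ x, c * rr π p N x ≤ rr π p N (c • x) := by
    intro c hc x
    apply le_rr
    intro T hT
    rw [map_smul, qq_smul π p N hne c hc]
    exact mul_le_mul_of_nonneg_left (rr_le π p N hne hp hT x) hc.le
  refine le_antisymm ?_ (key c hc x)
  have h := key c⁻¹ (inv_pos.mpr hc) (c • x)
  rw [inv_smul_smul₀ hc.ne'] at h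
  have h2 := mul_le_mul_of_nonneg_left h hc.le
  rwa [← mul_assoc, mul_inv_cancel₀ hc.ne', one_mul] at h2

theorem rr_inv [N.Normal] (hp : ∀ g x, p (π g x) ≤ p x) (g : G) (x : E) :
    rr π p N (π g x - x) ≤ 0 := by
  have key : ∀ n : ℕ, rr π p N (π g x - x) ≤
      ((n + 1 : ℕ) : ℝ)⁻¹ * (qq π p N x + qq π p N (-x)) := by
    intro n
    have h0 : av π g n ∈ TT π := Submonoid.subset_closure ⟨g, n, rfl⟩
    refine (rr_le π p N hne hp h0 _).trans ?_
    have h1 : (0 : ℝ) < ((n + 1 : ℕ) : ℝ) := by positivity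
    have h2 : av π g n (π g x - x) = ((n + 1 : ℕ) : ℝ)⁻¹ • (π (g ^ (n + 1)) x - x) := by
      rw [av_apply]
      congr 1
      have h3 : ∀ k, π (g ^ k) (π g x - x) = π (g ^ (k + 1)) x - π (g ^ k) x := by
        intro k
        rw [map_sub, pow_succ, map_mul]
        rfl
      simp only [h3]
      rw [Finset.sum_range_sub (fun k => π (g ^ k) x)]
      simp
    rw [h2]
    refine (qq_smul_le π p N hne (inv_pos.mpr h1).le _).trans ?_
    apply mul_le_mul_of_nonneg_left _ (inv_pos.mpr h1).le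
    rw [sub_eq_add_neg]
    exact (qq_add π p N hne _ _).trans (add_le_add (qq_inv π p N hne hp _ _) le_rfl)
  have hlim : Filter.Tendsto (fun n : ℕ => ((n + 1 : ℕ) : ℝ)⁻¹ * (qq π p N x + qq π p N (-x)))
      Filter.atTop (nhds (0 * (qq π p N x + qq π p N (-x)))) := by
    apply Filter.Tendsto.mul_const
    have := tendsto_one_div_add_atTop_nhds_zero_nat (𝕜 := ℝ)
    refine this.congr (fun n => ?_)
    push_cast
    rw [one_div]
  rw [zero_mul] at hlim
  exact ge_of_tendsto' hlim key

end step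

/-- extension by an abelian quotient -/
theorem InvHB.step {G : Type} [Group G] (N : Subgroup G) [N.Normal]
    (hN : ∀ a b : G, a * b * a⁻¹ * b⁻¹ ∈ N) (h : InvHB N) : InvHB G := by
  intro E _ _ π p h1 h2 hp
  have hne : (MM π p N).Nonempty := by
    obtain ⟨m, hm1, hm2⟩ := h E (π.comp N.subtype) p h1 h2 (fun g x => hp g x)
    exact ⟨m, hm1, fun n hn x => hm2 ⟨n, hn⟩ x⟩
  obtain ⟨m, hm⟩ := exists_le (rr π p N) (fun c hc x => rr_smul π p N hne hp c hc x)
    (rr_add π p N hne hp hN)
  have hle : ∀ x, rr π p N x ≤ p x := by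
    intro x
    refine (rr_le π p N hne hp (TT π).one_mem x).trans ?_
    exact qq_le π p N hne (fun m hm => hm.1 x)
  refine ⟨m, fun x => (hm x).trans (hle x), fun g x => ?_⟩
  have a1 : m (π g x - x) ≤ 0 := (hm _).trans (rr_inv π p N hne hp g x)
  have a2 : m (π g (-x) - -x) ≤ 0 := (hm _).trans (rr_inv π p N hne hp g (-x))
  rw [map_sub] at a1
  rw [map_neg, map_sub, map_neg, map_neg] at a2
  linarith

theorem InvHB.of_trivial {G : Type} [Group G] (h : ∀ g : G, g = 1) : InvHB G := by
  intro E _ _ π p h1 h2 hp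
  obtain ⟨m, hm⟩ := exists_le p h1 h2
  exact ⟨m, hm, fun g x => by rw [h g, map_one]; rfl⟩

theorem derived_comm {G : Type} [Group G] (n : ℕ) :
    (derivedSeries (commutator G) n).map (commutator G).subtype ≤ derivedSeries G (n + 1) := by
  induction n with
  | zero =>
    rintro _ ⟨x, _, rfl⟩
    rw [derivedSeries_one]
    exact x.2
  | succ n ih =>
    rw [derivedSeries_succ, derivedSeries_succ G (n + 1), Subgroup.map_commutator]
    exact Subgroup.commutator_mono ih ih

theorem InvHB.of_derived (n : ℕ) : ∀ (G : Type) [Group G], derivedSeries G n = ⊥ → InvHB G := by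
  induction n with
  | zero =>
    intro G _ h
    apply InvHB.of_trivial
    intro g
    have : g ∈ (⊤ : Subgroup G) := trivial
    rw [derivedSeries_zero] at h
    rw [h] at this
    exact Subgroup.mem_bot.mp this
  | succ n ih =>
    intro G _ h
    apply InvHB.step (commutator G)
    · intro a b
      exact Subgroup.commutator_mem_commutator (Subgroup.mem_top a) (Subgroup.mem_top b)
    · apply ih
      have h1 := derived_comm (G := G) n
      rw [h, le_bot_iff, Subgroup.map_eq_bot_iff_of_injective _ (Subgroup.subtype_injective _)] at h1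
      exact h1

/-- Amenability of the discrete group `G`: there is a finitely additive probability measure on all
subsets of `G` which is invariant under left translations. -/
def Amenable (G : Type) [Group G] : Prop :=
  ∃ m : Set G → ℝ, (∀ A, 0 ≤ m A) ∧ m Set.univ = 1 ∧
    (∀ A B, Disjoint A B → m (A ∪ B) = m A + m B) ∧ ∀ (g : G) (A : Set G), m ((g * ·) '' A) = m A

/-- bounded functions -/
def Bdd (G : Type) : Submodule ℝ (G → ℝ) where
  carrier := {f | ∃ C, ∀ x, |f x| ≤ C}
  add_mem' := by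
    rintro f g ⟨C, hC⟩ ⟨D, hD⟩
    exact ⟨C + D, fun x => (abs_add_le _ _).trans (add_le_add (hC x) (hD x))⟩
  zero_mem' := ⟨0, fun x => by simp⟩
  smul_mem' := by
    rintro c f ⟨C, hC⟩
    refine ⟨|c| * C, fun x => ?_⟩
    show |c * f x| ≤ _
    rw [abs_mul]
    exact mul_le_mul_of_nonneg_left (hC x) (abs_nonneg c)

/-- left translation of bounded functions -/
def tra (G : Type) [Group G] : G →* Module.End ℝ (Bdd G) where
  toFun g :=
    { toFun := fun f => ⟨fun x => f.1 (g⁻¹ * x), by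
        obtain ⟨C, hC⟩ := f.2
        exact ⟨C, fun x => hC _⟩⟩
      map_add' := fun _ _ => rfl
      map_smul' := fun _ _ => rfl }
  map_one' := by
    ext f x
    show f.1 (1⁻¹ * x) = f.1 x
    rw [inv_one, one_mul]
  map_mul' g h := by
    ext f x
    show f.1 ((g * h)⁻¹ * x) = f.1 (h⁻¹ * (g⁻¹ * x))
    rw [mul_inv_rev, mul_assoc]

open Classical in
/-- indicator function -/
def ind {G : Type} (A : Set G) : Bdd G :=
  ⟨fun x => if x ∈ A then 1 else 0, 1, fun x => by
    show |(if x ∈ A then (1 : ℝ) else 0)| ≤ 1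
    split_ifs <;> simp⟩

theorem ind_pos {G : Type} {A : Set G} {x : G} (h : x ∈ A) : (ind A).1 x = 1 := if_pos h

theorem ind_neg {G : Type} {A : Set G} {x : G} (h : x ∉ A) : (ind A).1 x = 0 := if_neg h

theorem InvHB.amenable {G : Type} [Group G] (h : InvHB G) : Amenable G := by
  have bdd : ∀ f : Bdd G, BddAbove (Set.range f.1) := by
    intro f
    obtain ⟨C, hC⟩ := f.2
    refine ⟨C, ?_⟩
    rintro _ ⟨x, rfl⟩
    exact (le_abs_self _).trans (hC x)
  obtain ⟨M, hM1, hM2⟩ := h (Bdd G) (tra G) (fun f => ⨆ x, f.1 x) (by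
      intro c hc f
      exact (Real.mul_iSup_of_nonneg hc.le _).symm) (by
      intro f g
      apply ciSup_le
      intro x
      exact add_le_add (le_ciSup (bdd f) x) (le_ciSup (bdd g) x)) (by
      intro g f
      apply ciSup_le
      intro x
      exact le_ciSup (bdd f) (g⁻¹ * x))
  have hle : ∀ (f : Bdd G) (c : ℝ), (∀ x, f.1 x ≤ c) → M f ≤ c := fun f c hf =>
    (hM1 f).trans (ciSup_le hf)
  refine ⟨fun A => M (ind A), ?_, ?_, ?_, ?_⟩
  · intro A
    have := hle (-ind A) 0 (by
      intro x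
      show -(ind A).1 x ≤ 0
      unfold ind
      simp only
      split_ifs <;> simp)
    rw [map_neg] at this
    linarith
  · apply le_antisymm
    · apply hle
      intro x
      unfold ind
      simp
    · have := hle (-ind Set.univ) (-1) (by
        intro x
        show -(ind Set.univ).1 x ≤ -1
        unfold ind
        simp)
      rw [map_neg] at this
      linarith
  · intro A B hAB
    show M (ind (A ∪ B)) = M (ind A) + M (ind B)
    rw [← map_add]
    congr 1
    ext x
    show (ind (A ∪ B)).1 x = (ind A).1 x + (ind B).1 x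
    by_cases h1 : x ∈ A
    · have h2 : x ∉ B := fun h => Set.disjoint_left.mp hAB h1 h
      rw [ind_pos (Set.mem_union_left B h1), ind_pos h1, ind_neg h2, add_zero]
    · by_cases h2 : x ∈ B
      · rw [ind_pos (Set.mem_union_right A h2), ind_neg h1, ind_pos h2, zero_add]
      · rw [ind_neg (fun h => h.elim h1 h2), ind_neg h1, ind_neg h2, add_zero]
  · intro g A
    show M (ind ((g * ·) '' A)) = M (ind A)
    rw [← hM2 g (ind A)]
    congr 1
    ext x
    show (ind ((g * ·) '' A)).1 x = (ind A).1 (g⁻¹ * x)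
    unfold ind
    simp only
    have : x ∈ (g * ·) '' A ↔ g⁻¹ * x ∈ A := by
      constructor
      · rintro ⟨a, ha, rfl⟩
        simpa using ha
      · intro h
        exact ⟨g⁻¹ * x, h, by simp⟩
    by_cases hx : g⁻¹ * x ∈ A
    · rw [if_pos (this.mpr hx), if_pos hx]
    · rw [if_neg (fun h => hx (this.mp h)), if_neg hx]

/-- solvable groups are amenable -/
theorem amenable_of_solvable (G : Type) [Group G] (h : Group.IsSolvable G) : Amenable G := by
  obtain ⟨n, hn⟩ := h
  exact (InvHB.of_derived n G hn).amenable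

end

end Pool.Agent.Helper240.Amen
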